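import Pool.Agent.H.MP_f011a7_co.Sil.UB

/-!
# MP_f011a7_co: the special columns against the fixed points, for every `t ≥ 1`
-/

set_option autoImplicit false

namespace FixPA

open Finset Equiv

variable {n : ℕ}

/-- the weight does not see the row `z` and the column of `z` -/
theorem wt_erase_val (t : ℝ) (I : Finset (Fin n)) {σ : Equiv.Perm (Fin n)} {z u : Fin n}
    (h : σ z = u) : wt t (I.erase u) σ = wt t (I.erase z) σ := by
  by_cases huz : u = z
  · rw [huz]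
  · apply wt_ext
    intro i
    rw [mem_erase, mem_erase]
    constructor
    · rintro ⟨⟨_, h2⟩, h3⟩
      refine ⟨⟨?_, h2⟩, h3⟩
      rintro rfl
      exact huz (h.symm.trans h3)
    · rintro ⟨⟨h1, h2⟩, h3⟩
      refine ⟨⟨?_, h2⟩, h3⟩
      rintro rfl
      exact h1 (σ.injective (h3.trans h.symm))

theorem wt_erase_val2 (t : ℝ) (I : Finset (Fin n)) {σ : Equiv.Perm (Fin n)} {z u l : Fin n}
    (h : σ z = u) : wt t ((I.erase u).erase l) σ = wt t ((I.erase z).erase l) σ := by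
  rw [Finset.erase_right_comm, Finset.erase_right_comm (a := z)]
  exact wt_erase_val t (I.erase l) h

/-- the sum over the special columns is at most the sum over the fixed points -/
theorem HQ {t : ℝ} (ht : 1 ≤ t) {f : Equiv.Perm (Fin n) → ℝ} (hf : Mon f)
    {I : Finset (Fin n)} {ρ : Equiv.Perm (Fin n)} (hc : Cls I ρ) {z : Fin n} (hzI : z ∈ I) :
    ∑ l ∈ Sp I ρ z, Hj t I ρ z f l
      ≤ ∑ l ∈ Sp I ρ z, ∑ u ∈ (I.image ρ).erase l, Xs t I ρ z f u l := by
  have h := WUB ht hf (I.erase z) I ρ (Sp I ρ z) (Finset.erase_subset _ _)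
    (fun l hl => Sp_sub hc hzI hl)
    (fun c hc' u hu huc => mem_Sp.2 ⟨hc', lt_of_lt_of_le (mem_Sp.1 hu).2 huc⟩) z hzI
    (Finset.notMem_erase z I) (fun u hu => (mem_Sp.1 hu).2)
  have h1 : ∑ l ∈ Sp I ρ z, Hj t I ρ z f l
      = ∑ σ ∈ (Om I ρ).filter (fun σ => σ z ∈ Sp I ρ z), wt t (I.erase z) σ * f σ := by
    rw [← Finset.sum_fiberwise_of_maps_to (s := (Om I ρ).filter (fun σ => σ z ∈ Sp I ρ z))
      (t := Sp I ρ z) (g := fun σ : Equiv.Perm (Fin n) => σ z)
      (fun σ hσ => (mem_filter.1 hσ).2)]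
    apply Finset.sum_congr rfl
    intro l hl
    unfold Hj
    have h2 : ((Om I ρ).filter (fun σ => σ z ∈ Sp I ρ z)).filter (fun σ => σ z = l)
        = Cy I ρ z l := by
      ext σ
      rw [mem_filter, mem_filter, mem_Cy]
      constructor
      · rintro ⟨⟨k1, _⟩, k2⟩; exact ⟨k1, k2⟩
      · rintro ⟨k1, k2⟩; exact ⟨⟨k1, k2 ▸ hl⟩, k2⟩
    rw [h2]
    apply Finset.sum_congr rfl
    intro σ hσ
    rw [wt_erase_val t I (mem_Cy.1 hσ).2]
  have h3 : ∀ l ∈ Sp I ρ z, ∑ σ ∈ (Om I ρ).filter (fun σ => σ l = l),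
        wt t ((I.erase z).erase l) σ * f σ
      = ∑ u ∈ (I.image ρ).erase l, Xs t I ρ z f u l := by
    intro l hl
    rw [← Finset.sum_fiberwise_of_maps_to (s := (Om I ρ).filter (fun σ => σ l = l))
      (t := (I.image ρ).erase l) (g := fun σ : Equiv.Perm (Fin n) => σ z)
      (fun σ hσ => by
        rw [mem_filter] at hσ
        rw [mem_erase]
        refine ⟨?_, (mem_image_of_Om hσ.1 z).2 hzI⟩
        intro k
        exact (ne_of_gt (mem_Sp.1 hl).2) (σ.injective (hσ.2.trans k.symm)))]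
    apply Finset.sum_congr rfl
    intro u _
    unfold Xs
    have h2 : ((Om I ρ).filter (fun σ => σ l = l)).filter (fun σ => σ z = u)
        = (Cy I ρ z u).filter (fun σ => σ l = l) := by
      ext σ
      rw [mem_filter, mem_filter, mem_filter, mem_Cy]
      tauto
    rw [h2]
    apply Finset.sum_congr rfl
    intro σ hσ
    rw [wt_erase_val2 t I (mem_Cy.1 (mem_filter.1 hσ).1).2]
  rw [h1, ← Finset.sum_congr rfl h3]
  exact h

/-- the suffix sums of the fixed points -/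
theorem XB {t : ℝ} (ht : 1 ≤ t) {f : Equiv.Perm (Fin n) → ℝ} (hf : Mon f)
    {I : Finset (Fin n)} {ρ : Equiv.Perm (Fin n)} (hc : Cls I ρ) {z : Fin n} (hzI : z ∈ I)
    {j : Fin n} (hj : j ∈ Sp I ρ z) :
    ∑ l ∈ (Sp I ρ z).filter (fun l => j < l), Xs t I ρ z f l j
      ≤ ∑ l ∈ (Sp I ρ z).filter (fun l => j < l), Xs t I ρ z f j l := by
  have ht0 : (0 : ℝ) ≤ t := by linarith
  have hzj : z < j := (mem_Sp.1 hj).2
  have hjJ : j ∈ I.image ρ := (mem_Sp.1 hj).1
  have hjI : j ∈ I := Sp_sub hc hzI hj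
  obtain ⟨ρ', g1, g2⟩ := exists_mem_Cy (ρ := ρ) hzI hjJ
  have g3 : Om (I.erase z) ρ' = Cy I ρ z j := by rw [Om_erase g1 hzI, g2]
  set U := (Sp I ρ z).filter (fun l => j < l) with hU
  have hUm : ∀ l ∈ U, l ∈ I ∧ l ∈ I.image ρ ∧ z < l ∧ j < l := by
    intro l hl
    rw [hU, mem_filter] at hl
    exact ⟨Sp_sub hc hzI hl.1, (mem_Sp.1 hl.1).1, (mem_Sp.1 hl.1).2, hl.2⟩
  have h := WUB ht hf ((I.erase z).erase j) (I.erase z) ρ' U (Finset.erase_subset _ _)
    (fun l hl => mem_erase.2 ⟨ne_of_gt (hUm l hl).2.2.1, (hUm l hl).1⟩)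
    (fun c hc' u hu huc => by
      rw [image_erase_of_Om g1, mem_erase] at hc'
      rw [hU, mem_filter, mem_Sp]
      obtain ⟨_, _, k3, k4⟩ := hUm u hu
      exact ⟨⟨hc'.2, lt_of_lt_of_le k3 huc⟩, lt_of_lt_of_le k4 huc⟩) j
    (mem_erase.2 ⟨ne_of_gt hzj, hjI⟩) (Finset.notMem_erase j _) (fun u hu => (hUm u hu).2.2.2)
  rw [g3] at h
  -- the right side
  have h3 : ∀ l ∈ U, ∑ σ ∈ (Cy I ρ z j).filter (fun σ => σ l = l),
        wt t (((I.erase z).erase j).erase l) σ * f σ = Xs t I ρ z f j l := by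
    intro l _
    unfold Xs
    apply Finset.sum_congr rfl
    intro σ hσ
    have k1 : σ z = j := (mem_Cy.1 (mem_filter.1 hσ).1).2
    congr 1
    have k2 : σ z ≠ z := by rw [k1]; exact ne_of_gt hzj
    have k3 : ((I.erase z).erase j).erase l = ((I.erase j).erase l).erase z := by
      ext i
      simp only [mem_erase]
      tauto
    rw [k3, wt_erase_of_ne t _ k2]
  -- the left side
  have h4 : ∑ l ∈ U, Xs t I ρ z f l j
      ≤ ∑ σ ∈ (Cy I ρ z j).filter (fun σ => σ j ∈ U), wt t ((I.erase z).erase j) σ * f σ := by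
    rw [← Finset.sum_fiberwise_of_maps_to (s := (Cy I ρ z j).filter (fun σ => σ j ∈ U))
      (t := U) (g := fun σ : Equiv.Perm (Fin n) => σ j) (fun σ hσ => (mem_filter.1 hσ).2)]
    apply Finset.sum_le_sum
    intro l hl
    obtain ⟨hlI, hlJ, hzl, hjl⟩ := hUm l hl
    have k0 : ((Cy I ρ z j).filter (fun σ => σ j ∈ U)).filter (fun σ => σ j = l)
        = (Cy I ρ z j).filter (fun σ => σ j = l) := by
      rw [Finset.filter_filter]
      apply Finset.filter_congr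
      intro σ _
      constructor
      · rintro ⟨_, k2⟩; exact k2
      · intro k2; exact ⟨k2 ▸ hl, k2⟩
    rw [k0]
    have k1 : ∑ σ ∈ (Cy I ρ z j).filter (fun σ => σ j = l), wt t ((I.erase z).erase j) σ * f σ
        = ∑ σ ∈ (Cy I ρ z l).filter (fun σ => σ j = j),
          wt t ((I.erase z).erase j) (σ * swap z j) * f (σ * swap z j) := by
      symm
      refine Finset.sum_bij' (fun σ _ => σ * swap z j) (fun σ _ => σ * swap z j) ?_ ?_ ?_ ?_ ?_
      · intro σ hσ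
        rw [mem_filter, mem_Cy] at hσ ⊢
        refine ⟨⟨mul_swap_mem_Om hσ.1.1 hzI hjI, ?_⟩, ?_⟩
        · rw [Equiv.Perm.mul_apply, Equiv.swap_apply_left]; exact hσ.2
        · rw [Equiv.Perm.mul_apply, Equiv.swap_apply_right]; exact hσ.1.2
      · intro σ hσ
        rw [mem_filter, mem_Cy] at hσ ⊢
        refine ⟨⟨mul_swap_mem_Om hσ.1.1 hzI hjI, ?_⟩, ?_⟩
        · rw [Equiv.Perm.mul_apply, Equiv.swap_apply_left]; exact hσ.2
        · rw [Equiv.Perm.mul_apply, Equiv.swap_apply_right]; exact hσ.1.2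
      · intro σ _
        rw [mul_assoc, Equiv.swap_mul_self, mul_one]
      · intro σ _
        rw [mul_assoc, Equiv.swap_mul_self, mul_one]
      · intro σ _; rfl
    rw [k1]
    unfold Xs
    apply Finset.sum_le_sum
    intro σ hσ
    rw [mem_filter, mem_Cy] at hσ
    obtain ⟨⟨k2, k3⟩, k4⟩ := hσ
    have k5 : wt t ((I.erase l).erase j) σ = wt t ((I.erase z).erase j) (σ * swap z j) := by
      rw [wt_erase_val2 t I k3]
      apply wt_ext
      intro i
      rw [mem_erase, mem_erase]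
      constructor
      · rintro ⟨⟨m1, m2, m3⟩, m4⟩
        refine ⟨⟨m1, m2, m3⟩, ?_⟩
        rw [Equiv.Perm.mul_apply, Equiv.swap_apply_of_ne_of_ne m2 m1]; exact m4
      · rintro ⟨⟨m1, m2, m3⟩, m4⟩
        refine ⟨⟨m1, m2, m3⟩, ?_⟩
        rw [Equiv.Perm.mul_apply, Equiv.swap_apply_of_ne_of_ne m2 m1] at m4; exact m4
    rw [k5]
    apply mul_le_mul_of_nonneg_left _ (wt_nonneg ht0 _ _)
    exact hf.up hzj (by rw [k3, k4]; exact hjl)
  refine h4.trans (h.trans (le_of_eq ?_))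
  exact Finset.sum_congr rfl h3

/-- (S1) for every `t ≥ 1` -/
theorem main_T1 {t : ℝ} (ht1 : 1 ≤ t) {f : Equiv.Perm (Fin n) → ℝ} (hf : Mon f)
    {I : Finset (Fin n)} {ρ : Equiv.Perm (Fin n)} (hc : Cls I ρ) {z : Fin n} (hzI : z ∈ I)
    (hz : ∀ i ∈ I, z ≤ i) {j : Fin n} (hj : j ∈ Sp I ρ z) :
    0 ≤ ∑ l ∈ (Sp I ρ z).filter (fun l => j < l), (Hj t I ρ z f j - Hj t I ρ z f l) := by
  have ht0 : (0 : ℝ) ≤ t := by linarith
  have h1 := XB ht1 hf hc hzI hj
  have h2 : ∑ l ∈ (Sp I ρ z).filter (fun l => j < l), (Hj t I ρ z f j - Hj t I ρ z f l)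
      = ∑ l ∈ (Sp I ρ z).filter (fun l => j < l), gs t I ρ z f j l
        + (t - 1) * (∑ l ∈ (Sp I ρ z).filter (fun l => j < l), Xs t I ρ z f j l
          - ∑ l ∈ (Sp I ρ z).filter (fun l => j < l), Xs t I ρ z f l j) := by
    rw [← Finset.sum_sub_distrib, Finset.mul_sum, ← Finset.sum_add_distrib]
    apply Finset.sum_congr rfl
    intro l hl
    rw [mem_filter] at hl
    rw [Hj_sub (ne_of_lt hl.2) (mem_Sp.1 hj).1 (mem_Sp.1 hl.1).1]
  have h3 : 0 ≤ ∑ l ∈ (Sp I ρ z).filter (fun l => j < l), gs t I ρ z f j l := by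
    apply Finset.sum_nonneg
    intro l hl
    rw [mem_filter] at hl
    exact gs_nonneg ht0 hf hz hl.2 (mem_Sp.1 hl.1).1
  rw [h2]
  have h4 := mul_nonneg (by linarith : (0:ℝ) ≤ t - 1) (sub_nonneg.2 h1)
  linarith

end FixPA
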