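import Pool.Agent.H.MP_f011a7_co.PA
import Pool.Agent.H.MP_f011a7_co.Sil.S2o

/-!
# MP_f011a7_co: the value of the first row, all `t ≥ 1`
-/

set_option autoImplicit false

namespace FixPA

open Finset Equiv

variable {n : ℕ}

/-- from the suffix property: the average over a prefix is at least the average over the rest -/
theorem prefix_suffix {ι : Type*} [LinearOrder ι] (a : ι → ℝ) (j : ι) :
    ∀ (S : Finset ι), (∀ i ∈ S, 0 ≤ ∑ l ∈ S.filter (fun l => i < l), (a i - a l)) →
      ((S.filter fun l => l ≤ j).card : ℝ) * ∑ l ∈ S.filter (fun l => ¬ l ≤ j), a l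
        ≤ ((S.filter fun l => ¬ l ≤ j).card : ℝ) * ∑ l ∈ S.filter (fun l => l ≤ j), a l := by
  intro S
  induction S using Finset.induction_on_min with
  | empty => intro _; simp
  | insert m S hm ih =>
    intro ha
    have hmS : m ∉ S := fun h => lt_irrefl m (hm m h)
    have hfil : ∀ i ∈ S, (insert m S).filter (fun l => i < l) = S.filter (fun l => i < l) := by
      intro i hi
      rw [Finset.filter_insert, if_neg (not_lt.2 (hm i hi).le)]
    have hfilm : (insert m S).filter (fun l => m < l) = S := by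
      rw [Finset.filter_insert, if_neg (lt_irrefl m)]
      exact Finset.filter_true_of_mem hm
    have h1 := ih (fun i hi => by
        have := ha i (mem_insert_of_mem hi)
        rwa [hfil i hi] at this)
    have h2 := ha m (mem_insert_self m S)
    rw [hfilm, Finset.sum_sub_distrib, Finset.sum_const, nsmul_eq_mul] at h2
    by_cases hmj : m ≤ j
    · rw [Finset.filter_insert, if_pos hmj, Finset.filter_insert, if_neg (not_not.2 hmj),
        Finset.card_insert_of_notMem (fun h => hmS (mem_filter.1 h).1),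
        Finset.sum_insert (fun h => hmS (mem_filter.1 h).1)]
      push_cast
      have h3 := Finset.sum_filter_add_sum_filter_not S (fun l => l ≤ j) a
      have h4 := Finset.card_filter_add_card_filter_not (s := S) (fun l => l ≤ j)
      have h4' : ((S.filter fun l => l ≤ j).card : ℝ) + ((S.filter fun l => ¬ l ≤ j).card : ℝ)
          = (S.card : ℝ) := by exact_mod_cast h4
      rcases Nat.eq_zero_or_pos S.card with h0 | h0
      · have hS : S = ∅ := Finset.card_eq_zero.1 h0
        rw [hS]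
        simp
      · have hc : (0 : ℝ) < S.card := by exact_mod_cast h0
        set p : ℝ := ((S.filter fun l => l ≤ j).card : ℝ)
        set r : ℝ := ((S.filter fun l => ¬ l ≤ j).card : ℝ)
        set P := ∑ l ∈ S.filter (fun l => l ≤ j), a l
        set R := ∑ l ∈ S.filter (fun l => ¬ l ≤ j), a l
        have hr : 0 ≤ r := Nat.cast_nonneg _
        have h5 : (S.card : ℝ) * R ≤ (S.card : ℝ) * (r * a m) := by
          rw [← h3] at h2
          have h6 := mul_nonneg hr h2
          rw [← h4'] at h6 ⊢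
          nlinarith
        have h7 : R ≤ r * a m := le_of_mul_le_mul_left h5 hc
        nlinarith
    · have hall : ∀ l ∈ S, ¬ l ≤ j := fun l hl h => hmj ((hm l hl).le.trans h)
      have h3 : (insert m S).filter (fun l => l ≤ j) = ∅ := by
        apply Finset.filter_eq_empty_iff.2
        intro l hl
        rcases mem_insert.1 hl with h | h
        · rw [h]; exact hmj
        · exact hall l h
      rw [h3]
      simp

/-- **The value of the first row against a monotone function, all `t ≥ 1`.** -/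
theorem first_row {t : ℝ} (ht1 : 1 ≤ t) {f : Equiv.Perm (Fin (n + 1)) → ℝ} (hf : Mon f)
    (j : Fin (n + 1)) :
    Hs t univ 1 (fun σ : Equiv.Perm (Fin (n + 1)) => if σ 0 ≤ j then 1 else 0) * Hs t univ 1 f
      ≤ Hs t univ 1 (fun σ => (if σ 0 ≤ j then 1 else 0) * f σ)
        * Hs t univ 1 (fun _ : Equiv.Perm (Fin (n + 1)) => 1) := by
  have ht0 : (0 : ℝ) ≤ t := by linarith
  have hzI : (0 : Fin (n + 1)) ∈ (univ : Finset (Fin (n + 1))) := mem_univ _
  have hz : ∀ i ∈ (univ : Finset (Fin (n + 1))), (0 : Fin (n + 1)) ≤ i := fun i _ => Fin.zero_le i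
  have hc : Cls (univ : Finset (Fin (n + 1))) 1 := by
    intro i _ hi
    exact absurd (Finset.mem_univ i) hi
  have hOl : Ol (univ : Finset (Fin (n + 1))) 1 0 = {0} := by
    ext i
    rw [mem_Ol, mem_singleton]
    constructor
    · rintro ⟨_, h⟩; exact le_antisymm h (Fin.zero_le i)
    · rintro rfl
      exact ⟨by simp, le_refl _⟩
  have hS2 := main_T3 ht1 hf _ univ 1 rfl hc 0 hzI hz (by rw [hOl]; simp)
  have hpre := prefix_suffix (fun l => Hj t univ 1 0 f l) j (Sp univ 1 0)
    (fun i hi => main_T1 ht1 hf hc hzI hz hi)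
  rw [hOl, Finset.sum_singleton, Finset.sum_singleton, al_self] at hS2
  -- the columns
  have hsplit : ∀ F : Equiv.Perm (Fin (n + 1)) → ℝ, Hs t univ 1 F
      = t * Hj t univ 1 0 F 0 + ∑ l ∈ Sp univ 1 0, Hj t univ 1 0 F l := by
    intro F
    rw [Hs_eq hzI, ← Ol_union_Sp univ 1 0, Finset.sum_union (Ol_disj_Sp univ 1 0), hOl,
      Finset.sum_singleton, if_pos rfl]
    congr 1
    apply Finset.sum_congr rfl
    intro l hl
    rw [if_neg (ne_of_gt (mem_Sp.1 hl).2), one_mul]
  have hcol : ∀ (F : Equiv.Perm (Fin (n + 1)) → ℝ) (l : Fin (n + 1)),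
      Hj t univ 1 0 (fun σ => (if σ 0 ≤ j then 1 else 0) * F σ) l
        = if l ≤ j then Hj t univ 1 0 F l else 0 := by
    intro F l
    unfold Hj
    by_cases hl : l ≤ j
    · rw [if_pos hl]
      apply Finset.sum_congr rfl
      intro σ hσ
      beta_reduce
      rw [(mem_Cy.1 hσ).2, if_pos hl, one_mul]
    · rw [if_neg hl]
      apply Finset.sum_eq_zero
      intro σ hσ
      beta_reduce
      rw [(mem_Cy.1 hσ).2, if_neg hl, zero_mul, mul_zero]
  have hcol1 : ∀ l : Fin (n + 1), Hj t univ 1 0 (fun σ => if σ 0 ≤ j then 1 else 0) l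
        = if l ≤ j then Hj t univ 1 0 (fun _ => 1) l else 0 := by
    intro l
    have h := hcol (fun _ => 1) l
    simp only [mul_one] at h
    exact h
  have hsum : ∀ G : Fin (n + 1) → ℝ, ∑ l ∈ Sp univ 1 0, (if l ≤ j then G l else 0)
      = ∑ l ∈ (Sp (univ : Finset (Fin (n + 1))) 1 0).filter (fun l => l ≤ j), G l := fun G =>
    (Finset.sum_filter _ _).symm
  have hW0 := Hj_one_Ol t hc hzI hz (j := 0) (by rw [hOl]; exact mem_singleton_self 0)
  have hW1 : ∀ l ∈ Sp (univ : Finset (Fin (n + 1))) 1 0, Hj t univ 1 0 (fun _ => 1) l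
      = Rk t ((univ : Finset (Fin (n + 1))).card - 1) ((Sp (univ : Finset (Fin (n + 1))) 1 0).card - 1) := fun l hl =>
    Hj_one_Sp t hc hzI hz hl
  have hW0p : 0 < Rk t ((univ : Finset (Fin (n + 1))).card - 1) (Sp (univ : Finset (Fin (n + 1))) 1 0).card := Rk_pos ht1 _ _
  have hW1p : 0 < Rk t ((univ : Finset (Fin (n + 1))).card - 1) ((Sp (univ : Finset (Fin (n + 1))) 1 0).card - 1) :=
    Rk_pos ht1 _ _
  rw [hsplit, hsplit f, hsplit (fun σ => (if σ 0 ≤ j then 1 else 0) * f σ),
    hsplit (fun _ => 1), hcol f, hcol1, if_pos (Fin.zero_le j), if_pos (Fin.zero_le j)]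
  simp only [hcol f, hcol1]
  rw [hsum, hsum, hW0]
  have e1 : ∑ l ∈ (Sp (univ : Finset (Fin (n + 1))) 1 0).filter (fun l => l ≤ j),
      Hj t univ 1 0 (fun _ => 1) l
      = (((Sp (univ : Finset (Fin (n + 1))) 1 0).filter (fun l => l ≤ j)).card : ℝ)
        * Rk t ((univ : Finset (Fin (n + 1))).card - 1) ((Sp (univ : Finset (Fin (n + 1))) 1 0).card - 1) := by
    rw [Finset.sum_congr rfl (fun l hl => hW1 l (mem_filter.1 hl).1), Finset.sum_const,
      nsmul_eq_mul]
  have e2 : ∑ l ∈ Sp (univ : Finset (Fin (n + 1))) 1 0, Hj t univ 1 0 (fun _ => 1) l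
      = ((Sp (univ : Finset (Fin (n + 1))) 1 0).card : ℝ)
        * Rk t ((univ : Finset (Fin (n + 1))).card - 1) ((Sp (univ : Finset (Fin (n + 1))) 1 0).card - 1) := by
    rw [Finset.sum_congr rfl hW1, Finset.sum_const, nsmul_eq_mul]
  rw [e1, e2]
  have h3 := Finset.sum_filter_add_sum_filter_not (Sp (univ : Finset (Fin (n + 1))) 1 0)
    (fun l => l ≤ j) (fun l => Hj t univ 1 0 f l)
  have h4 := Finset.card_filter_add_card_filter_not (s := Sp (univ : Finset (Fin (n + 1))) 1 0)
    (fun l => l ≤ j)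
  have h4' : (((Sp (univ : Finset (Fin (n + 1))) 1 0).filter fun l => l ≤ j).card : ℝ)
      + (((Sp (univ : Finset (Fin (n + 1))) 1 0).filter fun l => ¬ l ≤ j).card : ℝ)
      = ((Sp (univ : Finset (Fin (n + 1))) 1 0).card : ℝ) := by exact_mod_cast h4
  rw [← h3] at hS2 ⊢
  rw [← h4'] at hS2 ⊢
  have hR0 : (((Sp (univ : Finset (Fin (n + 1))) 1 0).filter fun l => ¬ l ≤ j).card : ℝ) = 0 →
      ∑ l ∈ (Sp (univ : Finset (Fin (n + 1))) 1 0).filter (fun l => ¬ l ≤ j),
        Hj t univ 1 0 f l = 0 := by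
    intro h
    have h5 : ((Sp (univ : Finset (Fin (n + 1))) 1 0).filter fun l => ¬ l ≤ j).card = 0 := by
      exact_mod_cast h
    rw [Finset.card_eq_zero.1 h5, Finset.sum_empty]
  have hp : (0 : ℝ) ≤ (((Sp (univ : Finset (Fin (n + 1))) 1 0).filter fun l => l ≤ j).card : ℝ) :=
    Nat.cast_nonneg _
  have hr : (0 : ℝ) ≤ (((Sp (univ : Finset (Fin (n + 1))) 1 0).filter fun l => ¬ l ≤ j).card : ℝ) :=
    Nat.cast_nonneg _
  generalize Rk t ((univ : Finset (Fin (n + 1))).card - 1) (Sp (univ : Finset (Fin (n + 1))) 1 0).card = W0 at *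
  generalize Rk t ((univ : Finset (Fin (n + 1))).card - 1) ((Sp (univ : Finset (Fin (n + 1))) 1 0).card - 1) = W1 at *
  generalize (((Sp (univ : Finset (Fin (n + 1))) 1 0).filter fun l => l ≤ j).card : ℝ) = p at *
  generalize (((Sp (univ : Finset (Fin (n + 1))) 1 0).filter fun l => ¬ l ≤ j).card : ℝ) = r at *
  generalize ∑ l ∈ (Sp (univ : Finset (Fin (n + 1))) 1 0).filter (fun l => l ≤ j),
    Hj t univ 1 0 f l = P at *
  generalize ∑ l ∈ (Sp (univ : Finset (Fin (n + 1))) 1 0).filter (fun l => ¬ l ≤ j),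
    Hj t univ 1 0 f l = R at *
  generalize Hj t univ 1 0 f 0 = H at *
  -- real arithmetic
  have k1 : W0 * R * t ≤ r * W1 * (t * H) := by
    rcases hr.eq_or_lt with h | h
    · rw [hR0 h.symm, ← h]
      simp
    · have h5 : 0 < p + r := by linarith
      have h6 : (p + r) * R ≤ r * (P + R) := by nlinarith [hpre]
      have h7 : (p + r) * (W0 * R * t) ≤ (p + r) * (r * W1 * (t * H)) := by
        have h8 : (W0 * t) * ((p + r) * R) ≤ (W0 * t) * (r * (P + R)) :=
          mul_le_mul_of_nonneg_left h6 (mul_nonneg hW0p.le ht0)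
        have h9 : r * (W0 * (t * (P + R))) ≤ r * (W1 * ((p + r) * (t * H))) :=
          mul_le_mul_of_nonneg_left hS2 h.le
        nlinarith
      exact le_of_mul_le_mul_left h7 h5
  have k2 : p * R * W1 ≤ r * P * W1 := mul_le_mul_of_nonneg_right hpre hW1p.le
  nlinarith

end FixPA
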