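import Pool.Agent.H.MP_f011a7_co.S2
import Pool.Agent.H.MP_f011a7_co.Sil.HQ

/-!
# MP_f011a7_co: old columns against special columns for `(t - 1) ^ 2 ≤ 2`
-/

set_option autoImplicit false

namespace FixPA

open Finset Equiv

variable {n : ℕ}

/-- comparison of the groups of columns, for `(t - 1) ^ 2 ≤ 2` -/
theorem main_T2 {t : ℝ} (ht1 : 1 ≤ t) (ht2 : (t - 1) ^ 2 ≤ 2) {f : Equiv.Perm (Fin n) → ℝ}
    (hf : Mon f) :
    ∀ (m : ℕ) (I : Finset (Fin n)) (ρ : Equiv.Perm (Fin n)), I.card = m → Cls I ρ →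
      ∀ z ∈ I, (∀ i ∈ I, z ≤ i) →
      Rk t (I.card - 1) (Sp I ρ z).card *
          ((∑ b ∈ Ol I ρ z, al t z b) * ∑ l ∈ Sp I ρ z, Hj t I ρ z f l)
        ≤ Rk t (I.card - 1) ((Sp I ρ z).card - 1) *
          (((Sp I ρ z).card : ℝ) * ∑ b ∈ Ol I ρ z, al t z b * Hj t I ρ z f b) := by
  intro m
  induction m with
  | zero =>
    intro I ρ hI _ z hz
    rw [Finset.card_eq_zero] at hI
    rw [hI] at hz
    exact absurd hz (Finset.notMem_empty z)
  | succ m ih =>
    intro I ρ hI hc z hzI hz
    have ht0 : (0 : ℝ) ≤ t := by linarith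
    have hτ : (0 : ℝ) ≤ t - 1 := by linarith
    rcases Nat.eq_zero_or_pos (Sp I ρ z).card with hr0 | hrpos
    · rw [Finset.card_eq_zero] at hr0
      rw [hr0]
      simp
    -- names
    have hcard := card_Ol_add_Sp I ρ z
    have hSpsub : Sp I ρ z ⊆ I.erase z := by
      intro j hj
      exact mem_erase.2 ⟨ne_of_gt (mem_Sp.1 hj).2, Sp_sub hc hzI hj⟩
    have hSple : (Sp I ρ z).card ≤ m := by
      have := Finset.card_le_card hSpsub
      rw [Finset.card_erase_of_mem hzI, hI] at this
      omega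
    have hHQ := HQ ht1 hf hc hzI
    set O := Ol I ρ z with hO
    set S := Sp I ρ z with hS
    set J := I.image ρ with hJ
    have hOJ : ∀ b ∈ O, b ∈ J := fun b hb => (mem_Ol.1 hb).1
    have hSJ : ∀ b ∈ S, b ∈ J := fun b hb => (mem_Sp.1 hb).1
    have hOS : ∀ b ∈ O, ∀ l ∈ S, b < l := fun b hb l hl =>
      lt_of_le_of_lt (mem_Ol.1 hb).2 (mem_Sp.1 hl).2
    -- (1) the difference of an old and a special column
    have f1 : ∀ b ∈ O, ∀ l ∈ S, Hj t I ρ z f b - Hj t I ρ z f l
        = gs t I ρ z f b l + (t - 1) * Xs t I ρ z f b l := by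
      intro b hb l hl
      rw [Hj_sub (ne_of_lt (hOS b hb l hl)) (hOJ b hb) (hSJ l hl)]
      have : Xs t I ρ z f l b = 0 := by
        by_cases hbz : b = z
        · subst hbz
          exact Xs_eq_zero (hOJ _ hb) (Or.inr ⟨rfl, ne_of_gt (hOS _ hb l hl)⟩)
        · exact Xs_eq_zero (hOJ _ hb) (Or.inl (Ol_notMem hz hb hbz))
      rw [this, sub_zero]
    -- (2)
    have f2 : ∀ l ∈ S, ∑ u ∈ J.erase l, Xs t I ρ z f u l = (∑ b ∈ O, Xs t I ρ z f b l)
        + (∑ u ∈ S.erase l, Xs t I ρ z f u l) := by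
      intro l hl
      have h2 : (I.image ρ).erase l = O ∪ S.erase l := by
        ext u
        rw [mem_erase, ← Ol_union_Sp I ρ z, mem_union, mem_union, mem_erase]
        constructor
        · rintro ⟨h3, h4 | h4⟩
          · exact Or.inl h4
          · exact Or.inr ⟨h3, h4⟩
        · rintro (h4 | ⟨h3, h4⟩)
          · exact ⟨ne_of_lt (hOS u h4 l hl), Or.inl h4⟩
          · exact ⟨h3, Or.inr h4⟩
      rw [hJ, h2, Finset.sum_union]
      exact Finset.disjoint_of_subset_right (Finset.erase_subset _ _) (Ol_disj_Sp I ρ z)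
    -- (3) the induction hypothesis
    have f3 : ∀ l ∈ S, Rk t (I.card - 1 - 1) (S.card - 1) *
        ((∑ b ∈ O, al t z b) * ∑ u ∈ S.erase l, Xs t I ρ z f u l)
        ≤ Rk t (I.card - 1 - 1) (S.card - 1 - 1) *
          (((S.card : ℝ) - 1) * ∑ b ∈ O, al t z b * Xs t I ρ z f b l) := by
      intro l hl
      have hzl : z < l := (mem_Sp.1 hl).2
      have hlI : l ∈ I := Sp_sub hc hzI hl
      obtain ⟨ρ', h1, h2⟩ := exists_mem_Cy (ρ := ρ) hlI (hSJ l hl)
      have h3 := ih (I.erase l) ρ' (by rw [Finset.card_erase_of_mem hlI, hI]; rfl)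
        (hc.sub_fix h1 h2) z (mem_erase.2 ⟨ne_of_lt hzl, hzI⟩)
        (fun i hi => hz i (mem_of_mem_erase hi))
      rw [Ol_sub_fix h1 h2 hzl, Sp_sub_fix h1 h2, Finset.card_erase_of_mem hl,
        Finset.card_erase_of_mem hlI] at h3
      have h4 : ∀ u, Hj t (I.erase l) ρ' z f u = Xs t I ρ z f u l := fun u =>
        (Xs_eq_Hj hlI h1 h2).symm
      simp only [h4] at h3
      rw [Nat.cast_sub hrpos, Nat.cast_one] at h3
      exact h3
    -- (4)
    obtain ⟨k, hk⟩ : ∃ k, S.card = k + 1 := ⟨S.card - 1, by omega⟩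
    have hW0 : Rk t (I.card - 1) S.card
        = Rk t (I.card - 1) (S.card - 1) + (t - 1) * Rk t (I.card - 1 - 1) (S.card - 1) := by
      rw [hk]; exact Rk_pascal t _ k
    have hW1 : Rk t (I.card - 1) (S.card - 1)
        = (O.card : ℝ) * Rk t (I.card - 1 - 1) (S.card - 1)
          + ((S.card : ℝ) - 1) * Rk t (I.card - 1 - 1) (S.card - 1 - 1) := by
      have h1 : S.card - 1 + 1 ≤ I.card - 1 := by omega
      rw [Rk_row t h1]
      have h2 : ((I.card - 1 : ℕ) : ℝ) - ((S.card - 1 : ℕ) : ℝ) = (O.card : ℝ) := by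
        rw [sub_eq_iff_eq_add, ← Nat.cast_add, Nat.cast_inj]
        omega
      rw [h2, Nat.cast_sub hrpos, Nat.cast_one]
    have hX : 0 < Rk t (I.card - 1 - 1) (S.card - 1) := Rk_pos ht1 _ _
    have hX2 : 0 < Rk t (I.card - 1 - 1) (S.card - 1 - 1) := Rk_pos ht1 _ _
    have hOpos : 1 ≤ O.card := by omega
    set A := ∑ b ∈ O, al t z b with hA
    have hApos : 0 ≤ A := Finset.sum_nonneg fun b _ => (al_pos ht1 z b).le
    set X := Rk t (I.card - 1 - 1) (S.card - 1) with hXdef
    set X2 := Rk t (I.card - 1 - 1) (S.card - 1 - 1) with hX2def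
    set W1 := Rk t (I.card - 1) (S.card - 1) with hW1def
    have hgn : ∀ b ∈ O, ∀ l ∈ S, 0 ≤ gs t I ρ z f b l := fun b hb l hl =>
      gs_nonneg ht0 hf hz (hOS b hb l hl) (hSJ l hl)
    -- the totals
    set Pg := ∑ b ∈ O, al t z b * ∑ l ∈ S, gs t I ρ z f b l with hPg
    have hPgn : 0 ≤ Pg := Finset.sum_nonneg fun b hb =>
      mul_nonneg (al_pos ht1 z b).le (Finset.sum_nonneg fun l hl => hgn b hb l hl)
    set P := ∑ l ∈ S, ∑ b ∈ O, al t z b * Xs t I ρ z f b l with hP
    set Q := ∑ l ∈ S, ∑ b ∈ O, Xs t I ρ z f b l with hQ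
    set U := ∑ l ∈ S, ∑ u ∈ S.erase l, Xs t I ρ z f u l with hU
    set HL := ∑ l ∈ S, Hj t I ρ z f l with hHL
    set HB := ∑ b ∈ O, al t z b * Hj t I ρ z f b with hHB
    have hb : (S.card : ℝ) * HB - A * HL = Pg + (t - 1) * P := by
      have e1 : (S.card : ℝ) * HB - A * HL
          = ∑ b ∈ O, ∑ l ∈ S, al t z b * (Hj t I ρ z f b - Hj t I ρ z f l) := by
        rw [hHB, hA, hHL, Finset.sum_mul_sum, Finset.mul_sum, ← Finset.sum_sub_distrib]
        apply Finset.sum_congr rfl
        intro b _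
        simp only [mul_sub, Finset.sum_sub_distrib, Finset.sum_const, nsmul_eq_mul]
      rw [e1, hPg, hP, Finset.sum_comm (s := S), Finset.mul_sum, ← Finset.sum_add_distrib]
      apply Finset.sum_congr rfl
      intro b hb
      rw [Finset.mul_sum, Finset.mul_sum, ← Finset.sum_add_distrib]
      apply Finset.sum_congr rfl
      intro l hl
      rw [f1 b hb l hl]
      ring
    have hcc : HL ≤ Q + U + 0 := by
      rw [Finset.sum_congr rfl f2, Finset.sum_add_distrib] at hHQ
      rw [add_zero]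
      exact hHQ
    have hd : A * X * U ≤ ((S.card : ℝ) - 1) * X2 * P := by
      have := Finset.sum_le_sum f3
      rw [← Finset.mul_sum, ← Finset.mul_sum, ← Finset.mul_sum, ← Finset.mul_sum] at this
      rw [← hU, ← hP] at this
      linarith [this]
    have hr1 : (0 : ℝ) ≤ (S.card : ℝ) - 1 := by
      have : (1 : ℝ) ≤ S.card := by exact_mod_cast hrpos
      linarith
    have hsX : (O.card : ℝ) * X ≤ W1 := by
      rw [hW1]
      have := mul_nonneg hr1 hX2.le
      linarith
    have hW1n : 0 ≤ W1 := le_trans (mul_nonneg (Nat.cast_nonneg _) hX.le) hsX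
    -- the own column of the row `z`
    obtain ⟨Zg, hZf, hZg⟩ : ∃ Zg : ℝ, -((t - 1) * Zg) ≤ (O.card : ℝ) * P - A * Q ∧
        (t - 1) ^ 2 * X * Zg ≤ (W1 - (t - 1) * X * 0) * Pg := by
      by_cases hzO : z ∈ O
      · have hAe : A = (O.card : ℝ) + (t - 1) := by
          rw [hA, ← Finset.add_sum_erase _ _ hzO, al_self]
          rw [Finset.sum_congr rfl (fun b hb => al_ne t (ne_of_mem_erase hb)),
            Finset.sum_const, nsmul_eq_mul, mul_one, Finset.card_erase_of_mem hzO,
            Nat.cast_sub hOpos, Nat.cast_one]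
          ring
        have hPe : P = Q + (t - 1) * ∑ l ∈ S, Xs t I ρ z f z l := by
          rw [hP, hQ, Finset.mul_sum, ← Finset.sum_add_distrib]
          apply Finset.sum_congr rfl
          intro l _
          rw [← Finset.add_sum_erase _ _ hzO, ← Finset.add_sum_erase (a := z) (s := O)
            (f := fun b => Xs t I ρ z f b l) hzO, al_self]
          rw [Finset.sum_congr rfl (fun b hb => by
            rw [al_ne t (ne_of_mem_erase hb), one_mul])]
          ring
        refine ⟨∑ b ∈ O.erase z, ∑ l ∈ S, gs t I ρ z f b l, ?_, ?_⟩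
        · -- the sum of (B2)
          have h1 : Q - (O.card : ℝ) * ∑ l ∈ S, Xs t I ρ z f z l
              ≤ ∑ b ∈ O.erase z, ∑ l ∈ S, gs t I ρ z f b l := by
            have h2 : Q - (O.card : ℝ) * ∑ l ∈ S, Xs t I ρ z f z l
                = ∑ b ∈ O, ∑ l ∈ S, (Xs t I ρ z f b l - Xs t I ρ z f z l) := by
              rw [hQ, Finset.sum_comm (s := S)]
              simp only [Finset.sum_sub_distrib, Finset.sum_const, nsmul_eq_mul]
            rw [h2, ← Finset.add_sum_erase _ _ hzO]
            have h3 : ∑ l ∈ S, (Xs t I ρ z f z l - Xs t I ρ z f z l) = 0 := by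
              simp
            rw [h3, zero_add]
            apply Finset.sum_le_sum
            intro b hb
            apply Finset.sum_le_sum
            intro l hl
            have hb' := mem_erase.1 hb
            exact core_B2 ht0 hf hc hzI hz (hOJ z hzO) hb'.2
              (lt_of_le_of_ne (mem_Ol.1 hb'.2).2 hb'.1) hl
          have h4 := mul_le_mul_of_nonneg_left h1 hτ
          rw [hPe, hAe]
          nlinarith [h4]
        · -- size
          rw [mul_zero, sub_zero]
          have hZle : ∑ b ∈ O.erase z, ∑ l ∈ S, gs t I ρ z f b l ≤ Pg := by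
            rw [hPg, ← Finset.add_sum_erase _ _ hzO]
            have h1 : 0 ≤ al t z z * ∑ l ∈ S, gs t I ρ z f z l :=
              mul_nonneg (al_pos ht1 z z).le (Finset.sum_nonneg fun l hl => hgn z hzO l hl)
            have h2 : ∑ b ∈ O.erase z, al t z b * ∑ l ∈ S, gs t I ρ z f b l
                = ∑ b ∈ O.erase z, ∑ l ∈ S, gs t I ρ z f b l := by
              apply Finset.sum_congr rfl
              intro b hb
              rw [al_ne t (ne_of_mem_erase hb), one_mul]
            linarith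
          rcases Nat.lt_or_ge 1 O.card with hs2 | hs1
          · have hs2' : (2 : ℝ) ≤ O.card := by exact_mod_cast hs2
            have h1 : (t - 1) ^ 2 * X ≤ W1 := by
              have e1 : (t - 1) ^ 2 * X ≤ 2 * X := mul_le_mul_of_nonneg_right ht2 hX.le
              have e2 : 2 * X ≤ (O.card : ℝ) * X := mul_le_mul_of_nonneg_right hs2' hX.le
              linarith
            calc (t - 1) ^ 2 * X * ∑ b ∈ O.erase z, ∑ l ∈ S, gs t I ρ z f b l
                ≤ (t - 1) ^ 2 * X * Pg := mul_le_mul_of_nonneg_left hZle (by positivity)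
              _ ≤ W1 * Pg := mul_le_mul_of_nonneg_right h1 hPgn
          · have : O.erase z = ∅ := by
              rw [← Finset.card_eq_zero, Finset.card_erase_of_mem hzO]
              omega
            rw [this, Finset.sum_empty, mul_zero]
            exact mul_nonneg hW1n hPgn
      · have hal : ∀ b ∈ O, al t z b = 1 := fun b hb => al_ne t (by
          rintro rfl; exact hzO hb)
        have hAe : A = (O.card : ℝ) := by
          rw [hA, Finset.sum_congr rfl hal, Finset.sum_const, nsmul_eq_mul, mul_one]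
        have hPe : P = Q := by
          rw [hP, hQ]
          apply Finset.sum_congr rfl
          intro l _
          apply Finset.sum_congr rfl
          intro b hb
          rw [hal b hb, one_mul]
        refine ⟨0, ?_, ?_⟩
        · rw [hAe, hPe]; simp
        · rw [mul_zero, mul_zero, sub_zero]; exact mul_nonneg hW1n hPgn
    exact S2_arith hτ hX.le hApos hb hcc hd (by simp) hZf hW0 hW1 hZg

end FixPA
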