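import Pool.Agent.H.MP_f011a7_co.PA
import Pool.Agent.H.MP_f011a7_co.Sil.S2s

/-!
# MP_f011a7_co: positive association on the boards for `(t - 1) ^ 2 ≤ 2`
-/

set_option autoImplicit false

namespace FixPA

open Finset Equiv

variable {n : ℕ}

/-- positive association on the boards of the class, for `(t - 1) ^ 2 ≤ 2` -/
theorem main_TA {t : ℝ} (ht1 : 1 ≤ t) (ht2 : (t - 1) ^ 2 ≤ 2) {f f' : Equiv.Perm (Fin n) → ℝ}
    (hf : Mon f) (hf' : Mon f') :
    ∀ (m : ℕ) (I : Finset (Fin n)) (ρ : Equiv.Perm (Fin n)), I.card = m → Cls I ρ →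
      Hs t I ρ f * Hs t I ρ f'
        ≤ Hs t I ρ (fun σ => f σ * f' σ) * Hs t I ρ (fun _ => 1) := by
  intro m
  induction m with
  | zero =>
    intro I ρ hI _
    rw [Finset.card_eq_zero] at hI
    subst hI
    have h1 : Om (∅ : Finset (Fin n)) ρ = {ρ} := by
      ext σ
      rw [mem_Om, mem_singleton]
      constructor
      · intro h; exact Equiv.ext fun i => h i (Finset.notMem_empty i)
      · rintro rfl i _; rfl
    unfold Hs
    rw [h1]
    simp [wt]
  | succ m ih =>
    intro I ρ hI hc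
    have ht0 : (0 : ℝ) ≤ t := by linarith
    have hne : I.Nonempty := by
      rw [← Finset.card_pos]; omega
    set z := I.min' hne with hzdef
    have hzI : z ∈ I := I.min'_mem hne
    have hz : ∀ i ∈ I, z ≤ i := fun i hi => I.min'_le i hi
    -- the leaves
    have hleaf : ∀ j ∈ I.image ρ, Hj t I ρ z f j * Hj t I ρ z f' j
        ≤ Hj t I ρ z (fun σ => f σ * f' σ) j * Hj t I ρ z (fun _ => 1) j := by
      intro j hj
      obtain ⟨ρ', h1, h2⟩ := exists_mem_Cy (ρ := ρ) hzI hj
      rw [← h2, Hj_eq_Hs hzI h1, Hj_eq_Hs hzI h1, Hj_eq_Hs hzI h1, Hj_eq_Hs hzI h1]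
      exact ih (I.erase z) ρ' (by rw [Finset.card_erase_of_mem hzI, hI]; rfl) (hc.sub_min h1 hz)
    have hcard := card_Ol_add_Sp I ρ z
    have hSpsub : Sp I ρ z ⊆ I.erase z := by
      intro j hj
      exact mem_erase.2 ⟨ne_of_gt (mem_Sp.1 hj).2, Sp_sub hc hzI hj⟩
    have hSple : (Sp I ρ z).card ≤ m := by
      have := Finset.card_le_card hSpsub
      rw [Finset.card_erase_of_mem hzI, hI] at this
      omega
    have hsplit : ∀ F : Equiv.Perm (Fin n) → ℝ, Hs t I ρ F
        = ∑ b ∈ Ol I ρ z, al t z b * Hj t I ρ z F b + ∑ l ∈ Sp I ρ z, Hj t I ρ z F l := by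
      intro F
      rw [Hs_eq hzI, ← Ol_union_Sp I ρ z, Finset.sum_union (Ol_disj_Sp I ρ z)]
      congr 1
      apply Finset.sum_congr rfl
      intro l hl
      rw [if_neg (ne_of_gt (mem_Sp.1 hl).2), one_mul]
    have hZO : ∀ b ∈ Ol I ρ z, Hj t I ρ z (fun _ => 1) b = Rk t (I.card - 1) (Sp I ρ z).card :=
      fun b hb => Hj_one_Ol t hc hzI hz hb
    have hZS : ∀ b ∈ Sp I ρ z, Hj t I ρ z (fun _ => 1) b
        = Rk t (I.card - 1) ((Sp I ρ z).card - 1) := fun b hb => Hj_one_Sp t hc hzI hz hb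
    have hW0 : 0 < Rk t (I.card - 1) (Sp I ρ z).card := Rk_pos ht1 _ _
    have hW1 : 0 < Rk t (I.card - 1) ((Sp I ρ z).card - 1) := Rk_pos ht1 _ _
    have hS2 := main_T2 ht1 ht2 hf (m + 1) I ρ hI hc z hzI hz
    have hS2' := main_T2 ht1 ht2 hf' (m + 1) I ρ hI hc z hzI hz
    set O := Ol I ρ z with hO
    set S := Sp I ρ z with hS
    set W0 := Rk t (I.card - 1) S.card with hW0d
    set W1 := Rk t (I.card - 1) (S.card - 1) with hW1d
    have hOJ : ∀ b ∈ O, b ∈ I.image ρ := fun b hb => (mem_Ol.1 hb).1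
    have hSJ : ∀ b ∈ S, b ∈ I.image ρ := fun b hb => (mem_Sp.1 hb).1
    have hOne : O.Nonempty := by
      rw [← Finset.card_pos]; omega
    rw [hsplit f, hsplit f', hsplit (fun σ => f σ * f' σ), hsplit (fun _ => 1)]
    set A := ∑ b ∈ O, al t z b * Hj t I ρ z f b with hA
    set A' := ∑ b ∈ O, al t z b * Hj t I ρ z f' b with hA'
    set B := ∑ l ∈ S, Hj t I ρ z f l with hB
    set B' := ∑ l ∈ S, Hj t I ρ z f' l with hB'
    set CO := ∑ b ∈ O, al t z b * Hj t I ρ z (fun σ => f σ * f' σ) b with hCO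
    set CS := ∑ l ∈ S, Hj t I ρ z (fun σ => f σ * f' σ) l with hCS
    have hZOs : ∑ b ∈ O, al t z b * Hj t I ρ z (fun _ => 1) b = (∑ b ∈ O, al t z b) * W0 := by
      rw [Finset.sum_mul]
      exact Finset.sum_congr rfl fun b hb => by rw [hZO b hb]
    have hZSs : ∑ l ∈ S, Hj t I ρ z (fun _ => 1) l = (S.card : ℝ) * W1 := by
      rw [Finset.sum_congr rfl hZS, Finset.sum_const, nsmul_eq_mul]
    rw [hZOs, hZSs]
    have hAO : 0 < ∑ b ∈ O, al t z b := Finset.sum_pos (fun b _ => al_pos ht1 z b) hOne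
    -- the group of the old columns
    have g1 : A * A' ≤ (∑ b ∈ O, al t z b) * W0 * CO := by
      have c1 := cheb_weighted O (fun b => al t z b) (fun b => Hj t I ρ z f b)
        (fun b => Hj t I ρ z f' b) (fun b _ => (al_pos ht1 z b).le)
        (fun i hi j hj hij => main_S0 ht0 hf hz hi hj hij)
        (fun i hi j hj hij => main_S0 ht0 hf' hz hi hj hij)
      have c2 : ∑ b ∈ O, al t z b * (Hj t I ρ z f b * Hj t I ρ z f' b) ≤ W0 * CO := by
        rw [hCO, Finset.mul_sum]
        apply Finset.sum_le_sum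
        intro b hb
        have h := hleaf b (hOJ b hb)
        rw [hZO b hb] at h
        have h2 := mul_le_mul_of_nonneg_left h (al_pos ht1 z b).le
        calc _ ≤ _ := h2
          _ = _ := by ring
      calc A * A' ≤ _ := c1
        _ ≤ (∑ b ∈ O, al t z b) * (W0 * CO) := mul_le_mul_of_nonneg_left c2 hAO.le
        _ = _ := by ring
    -- the group of the special columns
    have g2 : B * B' ≤ (S.card : ℝ) * W1 * CS := by
      have c1 := cheb_suffix (fun b => Hj t I ρ z f b) (fun b => Hj t I ρ z f' b) S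
        (fun j hj => main_T1 ht1 hf hc hzI hz hj)
        (fun j hj => main_T1 ht1 hf' hc hzI hz hj)
      have c2 : ∑ b ∈ S, Hj t I ρ z f b * Hj t I ρ z f' b ≤ W1 * CS := by
        rw [hCS, Finset.mul_sum]
        apply Finset.sum_le_sum
        intro b hb
        have h := hleaf b (hSJ b hb)
        rw [hZS b hb] at h
        linarith
      calc B * B' ≤ _ := c1
        _ ≤ (S.card : ℝ) * (W1 * CS) := mul_le_mul_of_nonneg_left c2 (Nat.cast_nonneg _)
        _ = _ := by ring
    rcases Nat.eq_zero_or_pos S.card with hr0 | hrpos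
    · have hSe : S = ∅ := Finset.card_eq_zero.1 hr0
      have hB0 : B = 0 := by rw [hB, hSe, Finset.sum_empty]
      have hB0' : B' = 0 := by rw [hB', hSe, Finset.sum_empty]
      have hCS0 : CS = 0 := by rw [hCS, hSe, Finset.sum_empty]
      rw [hB0, hB0', hCS0, hr0]
      simp only [add_zero, Nat.cast_zero, zero_mul]
      linarith [g1]
    · have hx : 0 < (∑ b ∈ O, al t z b) * W0 := mul_pos hAO hW0
      have hy : 0 < (S.card : ℝ) * W1 := mul_pos (by exact_mod_cast hrpos) hW1
      refine combine hx hy g1 g2 ?_ ?_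
      · calc (∑ b ∈ O, al t z b) * W0 * B = W0 * ((∑ b ∈ O, al t z b) * B) := by ring
          _ ≤ _ := hS2
          _ = _ := by ring
      · calc (∑ b ∈ O, al t z b) * W0 * B' = W0 * ((∑ b ∈ O, al t z b) * B') := by ring
          _ ≤ _ := hS2'
          _ = _ := by ring

end FixPA
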