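import Pool.Agent.H.MP_f011a7_co.A1

/-!
# MP_f011a7_co: the row of a large value against the fixed points

`U` is an upper set of the free columns, all of them free rows, and `a` is a free row below `U`.
The sum over `σ a ∈ U` is at most the sum over the fixed points in `U`.
-/

set_option autoImplicit false

namespace FixPA

open Finset Equiv

variable {n : ℕ}

/-- a higher row takes more of the values in an upper set -/
theorem row_le {f : Equiv.Perm (Fin n) → ℝ} (hf : Mon f) {I : Finset (Fin n)}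
    {ρ : Equiv.Perm (Fin n)} {U : Finset (Fin n)} {a m : Fin n} (ha : a ∈ I) (hm : m ∈ I)
    (ham : a < m) (hup : ∀ c ∈ I.image ρ, ∀ u ∈ U, u ≤ c → c ∈ U) :
    ∑ σ ∈ (Om I ρ).filter (fun σ => σ a ∈ U), f σ
      ≤ ∑ σ ∈ (Om I ρ).filter (fun σ => σ m ∈ U), f σ := by
  have h1 := Finset.sum_filter_add_sum_filter_not ((Om I ρ).filter (fun σ => σ a ∈ U))
    (fun σ => σ m ∈ U) f
  have h2 := Finset.sum_filter_add_sum_filter_not ((Om I ρ).filter (fun σ => σ m ∈ U))
    (fun σ => σ a ∈ U) f
  rw [← h1, ← h2]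
  have h3 : ((Om I ρ).filter (fun σ => σ a ∈ U)).filter (fun σ => σ m ∈ U)
      = ((Om I ρ).filter (fun σ => σ m ∈ U)).filter (fun σ => σ a ∈ U) := by
    ext σ
    rw [mem_filter, mem_filter, mem_filter, mem_filter]
    tauto
  rw [h3]
  apply add_le_add_right
  have h4 : ∑ σ ∈ ((Om I ρ).filter (fun σ => σ m ∈ U)).filter (fun σ => ¬ σ a ∈ U), f σ
      = ∑ σ ∈ ((Om I ρ).filter (fun σ => σ a ∈ U)).filter (fun σ => ¬ σ m ∈ U),
        f (σ * swap a m) := by
    symm
    refine Finset.sum_bij' (fun σ _ => σ * swap a m) (fun σ _ => σ * swap a m) ?_ ?_ ?_ ?_ ?_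
    · intro σ hσ
      rw [mem_filter, mem_filter] at hσ ⊢
      refine ⟨⟨mul_swap_mem_Om hσ.1.1 ha hm, ?_⟩, ?_⟩
      · rw [Equiv.Perm.mul_apply, Equiv.swap_apply_right]; exact hσ.1.2
      · rw [Equiv.Perm.mul_apply, Equiv.swap_apply_left]; exact hσ.2
    · intro σ hσ
      rw [mem_filter, mem_filter] at hσ ⊢
      refine ⟨⟨mul_swap_mem_Om hσ.1.1 ha hm, ?_⟩, ?_⟩
      · rw [Equiv.Perm.mul_apply, Equiv.swap_apply_left]; exact hσ.1.2
      · rw [Equiv.Perm.mul_apply, Equiv.swap_apply_right]; exact hσ.2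
    · intro σ _
      rw [mul_assoc, Equiv.swap_mul_self, mul_one]
    · intro σ _
      rw [mul_assoc, Equiv.swap_mul_self, mul_one]
    · intro σ _; rfl
  rw [h4]
  apply Finset.sum_le_sum
  intro σ hσ
  rw [mem_filter, mem_filter] at hσ
  apply hf.up ham
  by_contra hlt
  exact hσ.2 (hup _ ((mem_image_of_Om hσ.1.1 m).2 hm) _ hσ.1.2 (not_lt.1 hlt))

/-- the sum over `σ a ∈ U` against the fixed points in `U` -/
theorem UB {f : Equiv.Perm (Fin n) → ℝ} (hf : Mon f) {I : Finset (Fin n)}
    {ρ : Equiv.Perm (Fin n)} : ∀ (U : Finset (Fin n)), U ⊆ I →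
      (∀ c ∈ I.image ρ, ∀ u ∈ U, u ≤ c → c ∈ U) → ∀ a ∈ I, (∀ u ∈ U, a < u) →
      ∑ σ ∈ (Om I ρ).filter (fun σ => σ a ∈ U), f σ
        ≤ ∑ l ∈ U, ∑ σ ∈ (Om I ρ).filter (fun σ => σ l = l), f σ := by
  intro U
  induction U using Finset.induction_on_min with
  | empty => intro _ _ a _ _; simp
  | insert m U hm ih =>
    intro hUI hup a haI ha
    have hmU : m ∉ U := fun h => lt_irrefl m (hm m h)
    have hmI : m ∈ I := hUI (mem_insert_self m U)
    have h1 := row_le hf haI hmI (ha m (mem_insert_self m U)) hup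
    refine h1.trans ?_
    rw [Finset.sum_insert hmU]
    have h2 : (Om I ρ).filter (fun σ => σ m ∈ insert m U)
        = (Om I ρ).filter (fun σ => σ m = m) ∪ (Om I ρ).filter (fun σ => σ m ∈ U) := by
      rw [← Finset.filter_or]
      apply Finset.filter_congr
      intro σ _
      rw [mem_insert]
    have h3 : Disjoint ((Om I ρ).filter (fun σ => σ m = m))
        ((Om I ρ).filter (fun σ => σ m ∈ U)) := by
      rw [Finset.disjoint_left]
      intro σ h4 h5
      rw [mem_filter] at h4 h5
      rw [h4.2] at h5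
      exact hmU h5.2
    rw [h2, Finset.sum_union h3]
    apply add_le_add_right
    apply ih (fun x hx => hUI (mem_insert_of_mem hx)) _ m hmI hm
    intro c hc u hu huc
    rcases mem_insert.1 (hup c hc u (mem_insert_of_mem hu) huc) with h | h
    · exfalso
      rw [h] at huc
      exact absurd (hm u hu) (not_lt.2 huc)
    · exact h

/-- with weights on the rows in `E` -/
theorem WUB {t : ℝ} (ht : 1 ≤ t) {f : Equiv.Perm (Fin n) → ℝ} (hf : Mon f) :
    ∀ (E : Finset (Fin n)) (I : Finset (Fin n)) (ρ : Equiv.Perm (Fin n)) (U : Finset (Fin n)),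
      E ⊆ I → U ⊆ I → (∀ c ∈ I.image ρ, ∀ u ∈ U, u ≤ c → c ∈ U) → ∀ a ∈ I, a ∉ E →
      (∀ u ∈ U, a < u) →
      ∑ σ ∈ (Om I ρ).filter (fun σ => σ a ∈ U), wt t E σ * f σ
        ≤ ∑ l ∈ U, ∑ σ ∈ (Om I ρ).filter (fun σ => σ l = l), wt t (E.erase l) σ * f σ := by
  intro E
  induction E using Finset.induction_on with
  | empty =>
    intro I ρ U _ hUI hup a haI _ ha
    have h := UB hf U hUI hup a haI ha
    simp only [Finset.erase_empty]
    have h1 : ∀ σ : Equiv.Perm (Fin n), wt t ∅ σ * f σ = f σ := fun σ => by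
      unfold wt; rw [Finset.prod_empty, one_mul]
    simp only [h1]
    exact h
  | insert e E he ih =>
    intro I ρ U hEI hUI hup a haI haE ha
    have heI : e ∈ I := hEI (mem_insert_self e E)
    have hae : a ≠ e := fun h => haE (h ▸ mem_insert_self e E)
    have haE' : a ∉ E := fun h => haE (mem_insert_of_mem h)
    have hEI' : E ⊆ I := fun x hx => hEI (mem_insert_of_mem hx)
    have hτ : (0 : ℝ) ≤ t - 1 := by linarith
    -- the weight of the row `e`
    have hw : ∀ (F : Finset (Fin n)), e ∉ F → ∀ σ : Equiv.Perm (Fin n),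
        wt t (insert e F) σ * f σ
          = wt t F σ * f σ + (t - 1) * (if σ e = e then wt t F σ * f σ else 0) := by
      intro F hF σ
      unfold wt
      rw [Finset.prod_insert hF]
      split_ifs
      · ring
      · ring
    -- the two sides of the board
    have h1 : ∑ σ ∈ (Om I ρ).filter (fun σ => σ a ∈ U), wt t (insert e E) σ * f σ
        = ∑ σ ∈ (Om I ρ).filter (fun σ => σ a ∈ U), wt t E σ * f σ
          + (t - 1) * ∑ σ ∈ ((Om I ρ).filter (fun σ => σ a ∈ U)).filter (fun σ => σ e = e),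
            wt t E σ * f σ := by
      rw [Finset.sum_congr rfl (fun σ _ => hw E he σ), Finset.sum_add_distrib,
        ← Finset.mul_sum, Finset.sum_filter (fun σ : Equiv.Perm (Fin n) => σ e = e)]
    have h2 : ∀ l ∈ U, l ≠ e → ∑ σ ∈ (Om I ρ).filter (fun σ => σ l = l),
          wt t ((insert e E).erase l) σ * f σ
        = ∑ σ ∈ (Om I ρ).filter (fun σ => σ l = l), wt t (E.erase l) σ * f σ
          + (t - 1) * ∑ σ ∈ ((Om I ρ).filter (fun σ => σ l = l)).filter (fun σ => σ e = e),
            wt t (E.erase l) σ * f σ := by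
      intro l _ hle
      have hx : (insert e E).erase l = insert e (E.erase l) :=
        Finset.erase_insert_of_ne (Ne.symm hle)
      have hx2 : e ∉ E.erase l := fun h => he (mem_of_mem_erase h)
      rw [hx, Finset.sum_congr rfl (fun σ _ => hw (E.erase l) hx2 σ), Finset.sum_add_distrib,
        ← Finset.mul_sum, Finset.sum_filter (fun σ : Equiv.Perm (Fin n) => σ e = e)]
    have h3 : ∑ l ∈ U, ∑ σ ∈ (Om I ρ).filter (fun σ => σ l = l),
          wt t ((insert e E).erase l) σ * f σ
        = ∑ l ∈ U, ∑ σ ∈ (Om I ρ).filter (fun σ => σ l = l), wt t (E.erase l) σ * f σ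
          + (t - 1) * ∑ l ∈ U.erase e,
            ∑ σ ∈ ((Om I ρ).filter (fun σ => σ l = l)).filter (fun σ => σ e = e),
              wt t (E.erase l) σ * f σ := by
      by_cases heU : e ∈ U
      · rw [← Finset.add_sum_erase _ _ heU, ← Finset.add_sum_erase (a := e) (s := U)
          (f := fun l => ∑ σ ∈ (Om I ρ).filter (fun σ => σ l = l), wt t (E.erase l) σ * f σ) heU,
          Finset.erase_insert he, Finset.erase_eq_of_notMem he,
          Finset.sum_congr rfl (fun l hl => h2 l (mem_of_mem_erase hl) (ne_of_mem_erase hl)),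
          Finset.sum_add_distrib, ← Finset.mul_sum, add_assoc]
      · rw [Finset.erase_eq_of_notMem heU,
          Finset.sum_congr rfl (fun l hl => h2 l hl (fun h => heU (h ▸ hl))),
          Finset.sum_add_distrib, ← Finset.mul_sum]
    rw [h1, h3]
    apply add_le_add (ih I ρ U hEI' hUI hup a haI haE' ha)
    apply mul_le_mul_of_nonneg_left _ hτ
    -- the board without the fixed point `e`
    by_cases heJ : e ∈ I.image ρ
    · obtain ⟨ρ', g1, g2⟩ := exists_mem_Cy (ρ := ρ) heI heJ
      have g3 : Om (I.erase e) ρ' = (Om I ρ).filter (fun σ => σ e = e) := by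
        rw [Om_erase g1 heI, g2]; rfl
      have g4 : ((Om I ρ).filter (fun σ => σ a ∈ U)).filter (fun σ => σ e = e)
          = (Om (I.erase e) ρ').filter (fun σ => σ a ∈ U.erase e) := by
        rw [g3]
        ext σ
        rw [mem_filter, mem_filter, mem_filter, mem_filter, mem_erase]
        constructor
        · rintro ⟨⟨k1, k2⟩, k3⟩
          refine ⟨⟨k1, k3⟩, ?_, k2⟩
          intro k4
          exact hae (σ.injective (k4.trans k3.symm))
        · rintro ⟨⟨k1, k3⟩, _, k2⟩
          exact ⟨⟨k1, k2⟩, k3⟩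
      have g5 : ∀ l, ((Om I ρ).filter (fun σ => σ l = l)).filter (fun σ => σ e = e)
          = (Om (I.erase e) ρ').filter (fun σ => σ l = l) := by
        intro l
        rw [g3, Finset.filter_filter, Finset.filter_filter]
        apply Finset.filter_congr
        intro σ _
        tauto
      rw [g4]
      simp only [g5]
      apply ih (I.erase e) ρ' (U.erase e)
      · intro x hx
        exact mem_erase.2 ⟨fun h => he (h ▸ hx), hEI' hx⟩
      · intro x hx
        exact mem_erase.2 ⟨ne_of_mem_erase hx, hUI (mem_of_mem_erase hx)⟩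
      · intro c hc u hu huc
        rw [image_erase_of_Om g1, g2, mem_erase] at hc
        exact mem_erase.2 ⟨hc.1, hup c hc.2 u (mem_of_mem_erase hu) huc⟩
      · exact mem_erase.2 ⟨hae, haI⟩
      · exact haE'
      · intro u hu
        exact ha u (mem_of_mem_erase hu)
    · have g1 : ∀ σ ∈ Om I ρ, σ e ≠ e := by
        intro σ hσ h
        exact heJ (by rw [← h]; exact (mem_image_of_Om hσ e).2 heI)
      have g2 : ((Om I ρ).filter (fun σ => σ a ∈ U)).filter (fun σ => σ e = e) = ∅ := by
        apply Finset.filter_eq_empty_iff.2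
        intro σ hσ
        exact g1 σ (mem_of_mem_filter σ hσ)
      have g3 : ∀ l, ((Om I ρ).filter (fun σ => σ l = l)).filter (fun σ => σ e = e) = ∅ := by
        intro l
        apply Finset.filter_eq_empty_iff.2
        intro σ hσ
        exact g1 σ (mem_of_mem_filter σ hσ)
      rw [g2]
      simp only [g3, Finset.sum_empty, Finset.sum_const_zero]
      exact le_refl 0

end FixPA
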